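import Pool.Agent.Helper20.ZT.Defs

/-! # Z6: the certificate (project MP_130685_nt Translates) -/

namespace Pool.Agent.Helper20.ZT
open Finset MvPolynomial Pool.Agent.Helper11.ZP

/-- the exponent of the leading coefficient: forget the variables of `T` -/
noncomputable def offT {n : ℕ} (T : Finset (Fin n)) (m : Fin n →₀ ℕ) : Fin n →₀ ℕ :=
  m.filter (fun i => i ∉ T)

theorem C_mul_prod_eq {n : ℕ} (T : Finset (Fin n)) (m : Fin n →₀ ℕ) (a : ℂ) :
    (C a * ∏ i ∈ univ \ T, X i ^ m i : MvPolynomial (Fin n) ℂ) = monomial (offT T m) a := by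
  rw [MvPolynomial.monomial_eq, Finsupp.prod_fintype _ _ (fun i => pow_zero _)]
  congr 1
  rw [← Finset.prod_subset (Finset.subset_univ (univ \ T))]
  · refine Finset.prod_congr rfl fun i hi => ?_
    have hi' : i ∉ T := by simpa using hi
    rw [offT, Finsupp.filter_apply_pos (fun i => i ∉ T) _ hi']
  · intro i _ hi
    have hi' : ¬ (i ∉ T) := by simpa using hi
    rw [offT, Finsupp.filter_apply_neg (fun i => i ∉ T) _ hi', pow_zero]

theorem lead_eq {n : ℕ} (T : Finset (Fin n)) (f : MvPolynomial (Fin n) ℂ) :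
    lead T f = ∑ m ∈ f.support with (∀ i ∈ T, m i = f.degreeOf i),
      monomial (offT T m) (f.coeff m) := by
  unfold lead
  exact Finset.sum_congr rfl fun m _ => C_mul_prod_eq T m _

theorem lead_ne_zero {n : ℕ} {J : Finset (Fin n)} {f : MvPolynomial (Fin n) ℂ} (hf : TopIn J f)
    (T : Finset (Fin n)) : lead T f ≠ 0 := by
  classical
  set t : Fin n →₀ ℕ := Finsupp.equivFunOnFinite.symm fun i => f.degreeOf i with ht
  have htop : f.coeff t ≠ 0 := hf.top
  intro h0
  have hc : (lead T f).coeff (offT T t) = f.coeff t := by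
    rw [lead_eq, MvPolynomial.coeff_sum]
    rw [Finset.sum_eq_single t]
    · rw [MvPolynomial.coeff_monomial, if_pos rfl]
    · intro m hm hne
      rw [MvPolynomial.coeff_monomial, if_neg]
      intro he
      apply hne
      ext i
      by_cases hi : i ∈ T
      · have := (Finset.mem_filter.mp hm).2 i hi
        rw [this, ht]; rfl
      · have := DFunLike.congr_fun he i
        rw [offT, offT, Finsupp.filter_apply_pos (fun i => i ∉ T) _ hi,
          Finsupp.filter_apply_pos (fun i => i ∉ T) _ hi] at this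
        exact this
    · intro hn
      exfalso
      apply hn
      rw [Finset.mem_filter]
      exact ⟨MvPolynomial.mem_support_iff.mpr htop, fun i _ => rfl⟩
  rw [h0, MvPolynomial.coeff_zero] at hc
  exact htop hc.symm

theorem lead_vars {n : ℕ} {J : Finset (Fin n)} {f : MvPolynomial (Fin n) ℂ} (hf : TopIn J f)
    (T : Finset (Fin n)) : (lead T f).vars ⊆ J \ T := by
  classical
  rw [lead_eq]
  refine (MvPolynomial.vars_sum_subset _ _).trans ?_
  intro i hi
  rw [Finset.mem_biUnion] at hi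
  obtain ⟨m, hm, hi⟩ := hi
  have hm' := (Finset.mem_filter.mp hm).1
  have hc : f.coeff m ≠ 0 := MvPolynomial.mem_support_iff.mp hm'
  rw [MvPolynomial.vars_monomial hc] at hi
  rw [offT, Finsupp.support_filter, Finset.mem_filter] at hi
  rw [Finset.mem_sdiff]
  refine ⟨hf.vars ?_, hi.2⟩
  rw [MvPolynomial.mem_vars_iff_mem_support]
  exact ⟨m, hm', hi.1⟩

/-- the transcendence degree count -/
theorem trdeg_count {n d r : ℕ} (hr : r + d < n) (f : Finset (Fin n) → MvPolynomial (Fin n) ℂ)
    (hf : ∀ J, J.card = d + 1 → TopIn J (f J)) (T : Finset (Fin n)) (hT : T.card ≤ d)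
    (c : Fin n → Fin r) (K : Type) [Field K] [Algebra ℂ K] (ab : Fin n ⊕ Fin n → K)
    (hab : AlgebraicIndependent ℂ ab) (z : Fin r → K)
    (hz : ∀ J : Finset (Fin n), J.card = d + 1 →
      aeval (fun i => ab (Sum.inl i) + ab (Sum.inr i) * z (c i)) (lead T (f J)) = 0) : False := by
  classical
  set P : Fin n → K := fun i => ab (Sum.inl i) + ab (Sum.inr i) * z (c i) with hPdef
  set M := AlgebraicIndependent.matroid ℂ K with hM
  set U : Finset (Fin n) := univ \ T with hU
  have hUcard : U.card = n - T.card := by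
    rw [hU, Finset.card_sdiff_of_subset (Finset.subset_univ _), Finset.card_univ, Fintype.card_fin]
  have hTn : T.card ≤ n := by
    have := Finset.card_le_univ T
    rwa [Fintype.card_fin] at this
  -- no algebraically independent subfamily of `P` on `U` of size `d + 1 - |T|`
  have hno : ∀ J' : Finset (Fin n), J' ⊆ U → J'.card = d + 1 - T.card →
      ¬ AlgebraicIndependent ℂ (fun i : J' => P i) := by
    intro J' hJ' hc hind
    have hdisj : Disjoint T J' := by
      rw [Finset.disjoint_left]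
      intro i hi hi'
      exact (Finset.mem_sdiff.mp (hJ' hi')).2 hi
    have hJ : (T ∪ J').card = d + 1 := by
      rw [Finset.card_union_of_disjoint hdisj]; omega
    have h0 := hz _ hJ
    have hv : (lead T (f (T ∪ J'))).vars ⊆ J' := by
      refine (lead_vars (hf _ hJ) T).trans ?_
      intro i hi
      rw [Finset.mem_sdiff, Finset.mem_union] at hi
      exact hi.1.resolve_left hi.2
    have hne := lead_ne_zero (hf _ hJ) T
    obtain ⟨g, hg⟩ := (MvPolynomial.exists_rename_eq_of_vars_subset_range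
      (lead T (f (T ∪ J'))) (fun i : J' => (i : Fin n)) Subtype.val_injective
      (by intro i hi; exact ⟨⟨i, hv hi⟩, rfl⟩))
    rw [← hg, MvPolynomial.aeval_rename] at h0
    have hg0 : g = 0 := by
      have := (algebraicIndependent_iff.mp hind) g
      exact this h0
    apply hne
    rw [← hg, hg0, map_zero]
  -- rank of `P` on `U`
  have hrkP : M.eRk (P '' (U : Set (Fin n))) ≤ ((d - T.card : ℕ) : ℕ∞) := by
    rw [Matroid.eRk_le_iff]
    intro I hI hind
    by_contra hlt
    push Not at hlt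
    have hle : ((d + 1 - T.card : ℕ) : ℕ∞) ≤ I.encard := by
      have : ((d + 1 - T.card : ℕ) : ℕ∞) = ((d - T.card : ℕ) : ℕ∞) + 1 := by
        have : d + 1 - T.card = d - T.card + 1 := by omega
        rw [this]; push_cast; rfl
      rw [this]
      exact Order.add_one_le_of_lt hlt
    obtain ⟨I', hI'I, hI'c⟩ := Set.exists_subset_encard_eq hle
    have hfin : I'.Finite := by
      apply Set.finite_of_encard_eq_coe hI'c
    -- choose preimages
    have hsub : I' ⊆ P '' (U : Set (Fin n)) := hI'I.trans hI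
    have : Nonempty (Fin n) := ⟨⟨0, by omega⟩⟩
    have hsub' : ∀ a, a ∈ I' → ∃ i : Fin n, i ∈ U ∧ P i = a := fun a ha => by
      obtain ⟨i, hi, he⟩ := hsub ha
      exact ⟨i, by exact_mod_cast hi, he⟩
    choose! s hs using hsub'
    have hsU : ∀ {a}, a ∈ I' → s a ∈ U := fun ha => (hs _ ha).1
    have hsP : ∀ {a}, a ∈ I' → P (s a) = a := fun ha => (hs _ ha).2
    have hinj : Set.InjOn s I' := by
      intro a ha b hb hab
      rw [← hsP ha, ← hsP hb, hab]
    set J' : Finset (Fin n) := hfin.toFinset.image s with hJ'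
    have hcard : J'.card = d + 1 - T.card := by
      rw [hJ', Finset.card_image_of_injOn (by simpa using hinj)]
      rw [hfin.encard_eq_coe_toFinset_card] at hI'c
      exact_mod_cast hI'c
    have hJU : J' ⊆ U := by
      intro i hi
      rw [hJ', Finset.mem_image] at hi
      obtain ⟨a, ha, rfl⟩ := hi
      exact hsU (hfin.mem_toFinset.mp ha)
    refine hno J' hJU hcard ?_
    have hI'ind : AlgebraicIndepOn ℂ id I' :=
      AlgebraicIndependent.matroid_indep_iff.mp (hind.subset hI'I)
    -- the family `P` on `J'` is the family `id` on `I'` reindexed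
    have hmem : ∀ i : J', P i ∈ I' := by
      rintro ⟨i, hi⟩
      rw [hJ', Finset.mem_image] at hi
      obtain ⟨a, ha, rfl⟩ := hi
      have ha' := hfin.mem_toFinset.mp ha
      show P (s a) ∈ I'
      rw [hsP ha']; exact ha'
    have hPinj : Function.Injective (fun i : J' => (⟨P i, hmem i⟩ : I')) := by
      rintro ⟨i, hi⟩ ⟨j, hj⟩ hij
      have hij' : P i = P j := congrArg Subtype.val hij
      have hi' := hi; have hj' := hj
      rw [hJ', Finset.mem_image] at hi' hj'
      obtain ⟨a, ha, rfl⟩ := hi'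
      obtain ⟨b, hb, rfl⟩ := hj'
      rw [hsP (hfin.mem_toFinset.mp ha), hsP (hfin.mem_toFinset.mp hb)] at hij'
      subst hij'
      rfl
    exact hI'ind.comp (fun i : J' => (⟨P i, hmem i⟩ : I')) hPinj
  -- the big independent set
  set S : Set K := ab '' (U.disjSum U : Set (Fin n ⊕ Fin n)) with hS
  have hSind : M.Indep S := by
    rw [hM, AlgebraicIndependent.matroid_indep_iff]
    exact AlgebraicIndependent.image
      (hab.comp (fun j : ((U.disjSum U : Finset (Fin n ⊕ Fin n)) : Set (Fin n ⊕ Fin n)) => (j : Fin n ⊕ Fin n))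
        Subtype.val_injective)
  have hScard : S.encard = ((U.card + U.card : ℕ) : ℕ∞) := by
    rw [hS, hab.injective.injOn.encard_image, Set.encard_coe_eq_coe_finsetCard,
      Finset.card_disjSum]
  set Y : Set K := (fun i => ab (Sum.inr i)) '' (U : Set (Fin n)) ∪ Set.range z with hY
  set X : Set K := P '' (U : Set (Fin n)) ∪ Y with hX
  have hadj : ∀ x ∈ Algebra.adjoin ℂ X, x ∈ M.closure X := by
    intro x hx
    rw [hM, AlgebraicIndependent.matroid_closure_eq]
    exact isAlgebraic_algebraMap (A := K) (⟨x, hx⟩ : Algebra.adjoin ℂ X)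
  have hSX : S ⊆ M.closure X := by
    rintro _ ⟨j, hj, rfl⟩
    apply hadj
    have hj' : j ∈ U.disjSum U := by exact_mod_cast hj
    rw [Finset.mem_disjSum] at hj'
    rcases hj' with ⟨i, hi, rfl⟩ | ⟨i, hi, rfl⟩
    · have h1 : P i ∈ Algebra.adjoin ℂ X :=
        Algebra.subset_adjoin (Or.inl ⟨i, by exact_mod_cast hi, rfl⟩)
      have h2 : ab (Sum.inr i) ∈ Algebra.adjoin ℂ X :=
        Algebra.subset_adjoin (Or.inr (Or.inl ⟨i, by exact_mod_cast hi, rfl⟩))
      have h3 : z (c i) ∈ Algebra.adjoin ℂ X :=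
        Algebra.subset_adjoin (Or.inr (Or.inr ⟨c i, rfl⟩))
      have h4 : ab (Sum.inl i) = P i - ab (Sum.inr i) * z (c i) := by
        rw [hPdef]; ring
      rw [h4]
      exact sub_mem h1 (mul_mem h2 h3)
    · exact Algebra.subset_adjoin (Or.inr (Or.inl ⟨i, by exact_mod_cast hi, rfl⟩))
  have hYc : Y.encard ≤ ((U.card + r : ℕ) : ℕ∞) := by
    refine (Set.encard_union_le _ _).trans ?_
    have h1 : ((fun i => ab (Sum.inr i)) '' (U : Set (Fin n))).encard ≤ ((U.card : ℕ) : ℕ∞) := by
      refine (Set.encard_image_le _ _).trans ?_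
      rw [Set.encard_coe_eq_coe_finsetCard]
    have h2 : (Set.range z).encard ≤ ((r : ℕ) : ℕ∞) := by
      rw [← Set.image_univ]
      refine (Set.encard_image_le _ _).trans ?_
      rw [Set.encard_univ]
      simp
    push_cast
    exact add_le_add h1 h2
  have hfinal : ((U.card + U.card : ℕ) : ℕ∞) ≤ ((d - T.card + (U.card + r) : ℕ) : ℕ∞) := by
    rw [← hScard, ← hSind.eRk_eq_encard]
    refine (M.eRk_mono hSX).trans ?_
    rw [Matroid.eRk_closure_eq]
    refine (M.eRk_union_le_eRk_add_eRk _ _).trans ?_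
    push_cast
    refine add_le_add (by exact_mod_cast hrkP) ?_
    refine (M.eRk_le_encard _).trans ?_
    exact_mod_cast hYc
  have hfin' : U.card + U.card ≤ d - T.card + (U.card + r) := by exact_mod_cast hfinal
  omega

/-- Z6 -/
theorem certificate {n d r : ℕ} (hr : r + d < n) (f : Finset (Fin n) → MvPolynomial (Fin n) ℂ)
    (hf : ∀ J, J.card = d + 1 → TopIn J (f J)) (T : Finset (Fin n)) (hT : T.card ≤ d)
    (c : Fin n → Fin r) :
    ∃ (R : MvPolynomial (Fin n ⊕ Fin n) ℂ)
      (h : Finset (Fin n) → MvPolynomial ((Fin n ⊕ Fin n) ⊕ Fin r) ℂ), R ≠ 0 ∧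
      ∑ J ∈ univ.powersetCard (d + 1), h J *
        aeval (fun i => X (Sum.inl (Sum.inl i)) + X (Sum.inl (Sum.inr i)) * X (Sum.inr (c i))
          : Fin n → MvPolynomial ((Fin n ⊕ Fin n) ⊕ Fin r) ℂ) (lead T (f J))
      = rename Sum.inl R := by
  classical
  set φ : MvPolynomial (Fin n ⊕ Fin n) ℂ →ₐ[ℂ] MvPolynomial ((Fin n ⊕ Fin n) ⊕ Fin r) ℂ :=
    rename Sum.inl with hφ
  set q : Fin n → MvPolynomial ((Fin n ⊕ Fin n) ⊕ Fin r) ℂ :=
    fun i => X (Sum.inl (Sum.inl i)) + X (Sum.inl (Sum.inr i)) * X (Sum.inr (c i)) with hq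
  set G : Finset (Fin n) → MvPolynomial ((Fin n ⊕ Fin n) ⊕ Fin r) ℂ :=
    fun J => aeval q (lead T (f J)) with hG
  set I : Ideal (MvPolynomial ((Fin n ⊕ Fin n) ⊕ Fin r) ℂ) :=
    Ideal.span (G '' ((Finset.powersetCard (d + 1) Finset.univ : Finset (Finset (Fin n))) :
      Set (Finset (Fin n)))) with hI
  by_cases hex : ∃ R, R ≠ 0 ∧ φ R ∈ I
  · obtain ⟨R, hR, hRI⟩ := hex
    rw [hI] at hRI
    obtain ⟨h, hh⟩ := (Submodule.mem_span_image_finset_iff_exists_fun' _).mp hRI
    refine ⟨R, h, hR, ?_⟩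
    rw [← hh]
    rfl
  · exfalso
    push Not at hex
    have hφinj : Function.Injective φ := rename_injective _ Sum.inl_injective
    set Mm : Submonoid (MvPolynomial ((Fin n ⊕ Fin n) ⊕ Fin r) ℂ) :=
      (nonZeroDivisors (MvPolynomial (Fin n ⊕ Fin n) ℂ)).map φ with hMm
    have hdis : Disjoint (I : Set (MvPolynomial ((Fin n ⊕ Fin n) ⊕ Fin r) ℂ)) Mm := by
      rw [Set.disjoint_left]
      rintro x hx ⟨R, hR, rfl⟩
      exact hex R (nonZeroDivisors.ne_zero hR) hx
    obtain ⟨𝔭, hprime, hle, hdis'⟩ := Ideal.exists_le_prime_disjoint I Mm hdis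
    set π : MvPolynomial ((Fin n ⊕ Fin n) ⊕ Fin r) ℂ →ₐ[ℂ]
      FractionRing (MvPolynomial ((Fin n ⊕ Fin n) ⊕ Fin r) ℂ ⧸ 𝔭) :=
      (IsScalarTower.toAlgHom ℂ (MvPolynomial ((Fin n ⊕ Fin n) ⊕ Fin r) ℂ ⧸ 𝔭) _).comp
        (Ideal.Quotient.mkₐ ℂ 𝔭) with hπ
    have hπ0 : ∀ x, π x = 0 ↔ x ∈ 𝔭 := by
      intro x
      rw [← Ideal.Quotient.eq_zero_iff_mem]
      constructor
      · intro h
        exact (IsFractionRing.injective (MvPolynomial ((Fin n ⊕ Fin n) ⊕ Fin r) ℂ ⧸ 𝔭)
          (FractionRing (MvPolynomial ((Fin n ⊕ Fin n) ⊕ Fin r) ℂ ⧸ 𝔭)))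
          (by rw [map_zero]; exact h)
      · intro h
        show algebraMap (MvPolynomial ((Fin n ⊕ Fin n) ⊕ Fin r) ℂ ⧸ 𝔭)
          (FractionRing (MvPolynomial ((Fin n ⊕ Fin n) ⊕ Fin r) ℂ ⧸ 𝔭))
          (Ideal.Quotient.mk 𝔭 x) = 0
        rw [h, map_zero]
    refine trdeg_count hr f hf T hT c _ (fun j => π (X (Sum.inl j))) ?_
      (fun j => π (X (Sum.inr j))) ?_
    · rw [algebraicIndependent_iff]
      intro R hR
      by_contra hne
      have h1 : (aeval fun j => π (X (Sum.inl j))) R = π (φ R) := by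
        rw [hφ, ← AlgHom.comp_apply]
        congr 1
        apply MvPolynomial.algHom_ext
        intro j
        simp
      rw [h1, hπ0] at hR
      exact (Set.disjoint_left.mp hdis' hR) ⟨R, mem_nonZeroDivisors_of_ne_zero hne, rfl⟩
    · intro J hJ
      have h1 : (aeval fun i => π (X (Sum.inl (Sum.inl i))) +
          π (X (Sum.inl (Sum.inr i))) * π (X (Sum.inr (c i)))) (lead T (f J)) = π (G J) := by
        rw [hG]
        show _ = π (aeval q (lead T (f J)))
        rw [← AlgHom.comp_apply]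
        congr 1
        apply MvPolynomial.algHom_ext
        intro i
        simp [hq]
      rw [h1, hπ0]
      apply hle
      apply Ideal.subset_span
      exact ⟨J, by simpa using hJ, rfl⟩

end Pool.Agent.Helper20.ZT
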